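import Mathlib
import Pool.Agent.T2H36.FP.P3

/-!
# The Tate conjecture for divisors and uniform finiteness of the invariants of the Brauer group at 100
percent of the primes, from Frobenius polynomials at finitely many places

Let `k` be a field which is finitely generated over `ℚ`, `Γ` its absolute Galois group, `X` a smooth
projective variety over `k`. `N` is the Néron-Severi lattice of `X̄` modulo torsion and `T` the
transcendental lattice (the orthogonal complement of `N` in `H^2(X, ℤ(1))` for the form given by a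
polarisation). `T ⊗ ℤ_ℓ` is a Galois module, and up to finite groups, which are trivial for almost all
`ℓ`, `T ⊗ ℚ_ℓ / ℤ_ℓ` is the `ℓ`-primary part of `Br(X̄)`. The Tate conjecture for divisors for `X` over
the extensions `L` of `k` at the prime `ℓ` is `(T ⊗ ℚ_ℓ)^{G_L} = 0`, equivalently the finiteness of
`(T ⊗ ℚ_ℓ / ℤ_ℓ)^{G_L}`.

Let `T` be (commensurable to) the sum of the lattices `T_i` of rank `n_i`, stable under the Galois group
for all `ℓ`; let `K` be a number field and `s : G_K → Γ` given by a closed point of a model of `X` (if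
`k` is a number field, then `K = k` and `s` is the identity), and let `P_i(v)` be the characteristic
polynomial of Frobenius on `T_i` at the place `v` of `K` of good reduction. For every `i` we suppose:
either
* `n_i ≥ 5` is odd, the Galois group preserves an integral symmetric form with determinant different
  from zero on `T_i`, and: (1) at some place `v₀`, `P_i(v₀) = (X - 1) Q₀`, where no complex root of `Q₀`
  is a root of unity and `x y ≠ z` for all complex roots `x`, `y`, `z` of `Q₀`; (2) at some place `v₁`,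
  `P_i(v₁) = (X - 1) Q₁`, where no complex root of `Q₁` is a root of unity, and the rational number
  `Q₀(1) Q₀(-1) Q₁(1) Q₁(-1)` is not a square; (3) `u_0, ..., u_m` are places at which the roots of
  `P_i(u_j)` are simple and no quotient of different roots is a root of unity, and for every `g` in
  `Gal(ℚ)` and every `d` with `2 ≤ d ≤ n_i - 2` there are a place `v` of this kind and an element `w` of
  `Gal(ℚ)` which agrees with `g` on the intersection of the splitting fields of the `P_i(u_j)` such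
  that no set of `d` roots of `P_i(v)` is stable under `w`; or
* at one place of good reduction no eigenvalue of Frobenius on `T_i` is a root of unity.

**Theorem.** There is a set `Λ` of prime numbers of natural density one such that for every `d` there
is a constant `C` with the following property: for ALL extensions `L` of `k` of degree at most `d` and ALL
`ℓ ∈ Λ`
* `(T ⊗ ℚ_ℓ)^{G_L} = 0`: the Tate conjecture for divisors holds for `X` over `L` at `ℓ`;
* `(T ⊗ ℚ_ℓ / ℤ_ℓ)^{G_L}` is killed by `C`.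

So the sum over all `ℓ ∈ Λ` of the groups `(T ⊗ ℚ_ℓ / ℤ_ℓ)^{G_L}` is finite, of order at most `C ^ rank T`,
uniformly in all `L` of degree at most `d`.

All hypotheses are conditions on finitely many Frobenius polynomials (point counts); nothing is assumed
on the image of the Galois group at any prime number. In odd rank every Frobenius element (of
determinant one) has the eigenvalue `1`, so that no single place gives the result.

Idea of the proof. By the theorem on density one in the starting files the conditions (1), (2), (3) give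
the full orthogonal Lie algebra for `T_i ⊗ ℚ_ℓ` at 100 percent of the `ℓ`, in particular for one prime
`ℓ₀` which does not divide `n_i - 1`. The theorem of `BrauerInvariantsUniform` gives the rest: at 100
percent of the `ℓ` the image contains all isometries of `T_i ⊗ ℤ_ℓ` whose reduction is a product of
elements of order `ℓ`, and the `d!`-th powers of these have no common invariants modulo `ℓ`.
-/

set_option autoImplicit false

namespace Pool.Agent.Results.MP_17a657_ag.BrauerFromPlaces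

open Matrix Filter Topology NumberField IsDedekindDomain

noncomputable section

/-- the absolute Galois group of `K`, with its profinite (Krull) topology -/
abbrev AbsoluteGaloisGroup (K : Type) [Field K] : Type := Gal(AlgebraicClosure K/K)

/-- `σ` is an (arithmetic) Frobenius element at the prime `v` of the number field `K`: for some prime
`Q` of the algebraic closure above `v` it acts on the residue field as `x ↦ x ^ N(v)` -/
def IsFrobenius {K : Type} [Field K] [NumberField K] (v : HeightOneSpectrum (𝓞 K))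
    (σ : AbsoluteGaloisGroup K) : Prop :=
  ∃ Q : Ideal (𝓞 (AlgebraicClosure K)), Q.IsMaximal ∧
    Q.comap (algebraMap (𝓞 K) (𝓞 (AlgebraicClosure K))) = v.asIdeal ∧
    ∀ x : 𝓞 (AlgebraicClosure K), σ • x - x ^ Ideal.absNorm v.asIdeal ∈ Q

/-- an `ℓ`-adic integral matrix as a matrix over `ℚ_ℓ` -/
def rat {ℓ : ℕ} [Fact ℓ.Prime] {n : ℕ} (g : Matrix (Fin n) (Fin n) ℤ_[ℓ]) :
    Matrix (Fin n) (Fin n) ℚ_[ℓ] :=
  g.map (algebraMap ℤ_[ℓ] ℚ_[ℓ])

/-- `β` is the representation of `Γ` on `T_i ⊗ ℤ_ℓ`: it is continuous, and for all `v ∉ S` which are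
prime to `ℓ` the characteristic polynomial of (the image under `s` of) the geometric Frobenius
elements at `v` is `P v` -/
def IsSystem {K : Type} [Field K] [NumberField K] {Γ : Type} [Group Γ] [TopologicalSpace Γ]
    (s : AbsoluteGaloisGroup K →* Γ) (S : Set (HeightOneSpectrum (𝓞 K)))
    (P : HeightOneSpectrum (𝓞 K) → Polynomial ℚ) {n : ℕ} (ℓ : ℕ) [Fact ℓ.Prime]
    (β : Γ →* Matrix (Fin n) (Fin n) ℤ_[ℓ]) : Prop :=
  Continuous β ∧ ∀ v ∉ S, (ℓ : 𝓞 K) ∉ v.asIdeal → ∀ σ : AbsoluteGaloisGroup K, IsFrobenius v σ →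
    (rat (β (s σ⁻¹))).charpoly = (P v).map (algebraMap ℚ ℚ_[ℓ])

/-- `P v = (X - 1) Q`, and no complex root of `Q` is a root of unity -/
def IsOrdinaryPlace {K : Type} [Field K] [NumberField K]
    (S : Set (HeightOneSpectrum (𝓞 K))) (P : HeightOneSpectrum (𝓞 K) → Polynomial ℚ)
    (v : HeightOneSpectrum (𝓞 K)) (Q : Polynomial ℚ) : Prop :=
  v ∉ S ∧ P v = (Polynomial.X - 1) * Q ∧
    ∀ k : ℕ, 0 < k → ∀ x : ℂ, Polynomial.aeval x Q = 0 → x ^ k ≠ 1

/-- the roots of `P v` are simple, and different roots have different `k`-th powers for all `k > 0` -/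
def IsRegularPlace {K : Type} [Field K] [NumberField K]
    (S : Set (HeightOneSpectrum (𝓞 K))) (P : HeightOneSpectrum (𝓞 K) → Polynomial ℚ)
    (v : HeightOneSpectrum (𝓞 K)) : Prop :=
  v ∉ S ∧ (P v).Separable ∧ ∀ k : ℕ, 0 < k → ∀ x y : ℂ,
    Polynomial.aeval x (P v) = 0 → Polynomial.aeval y (P v) = 0 → x ^ k = y ^ k → x = y

/-- the splitting field of `Q` in the algebraic closure of `ℚ` -/
def splittingField (Q : Polynomial ℚ) : Set (AlgebraicClosure ℚ) :=
  (IntermediateField.adjoin ℚ {x : AlgebraicClosure ℚ | Polynomial.aeval x Q = 0} :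
    IntermediateField ℚ (AlgebraicClosure ℚ))

/-- `R` is a set of roots of `Q` which is stable under `w` -/
def IsStableSet (w : AbsoluteGaloisGroup ℚ) (Q : Polynomial ℚ) (R : Set (AlgebraicClosure ℚ)) :
    Prop :=
  (∀ x ∈ R, Polynomial.aeval x Q = 0) ∧ ∀ x ∈ R, w x ∈ R

/-- the conditions (1), (2), (3) on the Frobenius polynomials in odd rank -/
def OddCertificate {K : Type} [Field K] [NumberField K] (n : ℕ)
    (S : Set (HeightOneSpectrum (𝓞 K))) (P : HeightOneSpectrum (𝓞 K) → Polynomial ℚ) : Prop :=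
  Odd n ∧ 5 ≤ n ∧ ∃ (v₀ v₁ : HeightOneSpectrum (𝓞 K)) (Q₀ Q₁ : Polynomial ℚ),
    IsOrdinaryPlace S P v₀ Q₀ ∧ IsOrdinaryPlace S P v₁ Q₁ ∧
    (∀ x y z : ℂ, Polynomial.aeval x Q₀ = 0 → Polynomial.aeval y Q₀ = 0 →
      Polynomial.aeval z Q₀ = 0 → x * y ≠ z) ∧
    ¬ IsSquare (Q₀.eval 1 * Q₀.eval (-1) * (Q₁.eval 1 * Q₁.eval (-1))) ∧
    ∃ (m : ℕ) (u : Fin (m + 1) → HeightOneSpectrum (𝓞 K)), (∀ i, IsRegularPlace S P (u i)) ∧
      ∀ (g : AbsoluteGaloisGroup ℚ) (d : ℕ), 2 ≤ d → (d = 2 ∨ d + 2 ≤ n) →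
        ∃ (v : HeightOneSpectrum (𝓞 K)) (w : AbsoluteGaloisGroup ℚ), IsRegularPlace S P v ∧
          (∀ x, (∀ i, x ∈ splittingField (P (u i))) → w x = g x) ∧
          ∀ R, IsStableSet w (P v) R → R.ncard ≠ d

/-- the first kind of pieces: odd rank at least five, an integral symmetric nondegenerate form `Z` is
preserved by the Galois group, and the Frobenius polynomials at finitely many places satisfy (1), (2)
and (3) -/
def IsOddPiece {K : Type} [Field K] [NumberField K] {Γ : Type} [Group Γ] (n : ℕ)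
    (S : Set (HeightOneSpectrum (𝓞 K))) (P : HeightOneSpectrum (𝓞 K) → Polynomial ℚ)
    (β : ∀ (ℓ : ℕ) [Fact ℓ.Prime], Γ →* Matrix (Fin n) (Fin n) ℤ_[ℓ]) : Prop :=
  OddCertificate n S P ∧ ∃ Z : Matrix (Fin n) (Fin n) ℤ, Zᵀ = Z ∧ Z.det ≠ 0 ∧
    ∀ (ℓ : ℕ) [Fact ℓ.Prime] (g : Γ), (β ℓ g)ᵀ * Z.map (Int.cast : ℤ → ℤ_[ℓ]) * β ℓ g =
      Z.map (Int.cast : ℤ → ℤ_[ℓ])

/-- the second kind of pieces: at one place `v ∉ S` no root of `P v` is a root of unity -/
def HasRootPlace {K : Type} [Field K] [NumberField K] (S : Set (HeightOneSpectrum (𝓞 K)))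
    (P : HeightOneSpectrum (𝓞 K) → Polynomial ℚ) : Prop :=
  ∃ v ∉ S, ∀ k : ℕ, 0 < k → ∀ x : ℂ, Polynomial.aeval x (P v) = 0 → x ^ k ≠ 1

/-- the set `A` of prime numbers has natural density zero -/
def HasDensityZero (A : Set ℕ) : Prop :=
  Tendsto (fun n : ℕ => (Nat.card {ℓ : ℕ // ℓ ≤ n ∧ ℓ ∈ A} : ℝ) / (Nat.primeCounting n : ℝ))
    atTop (𝓝 0)

/-- the vector `x` over `ℚ_ℓ` is integral -/
def Integral {ℓ : ℕ} [Fact ℓ.Prime] {n : ℕ} (x : Fin n → ℚ_[ℓ]) : Prop := ∀ a, ‖x a‖ ≤ 1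

section proof

variable {K : Type} [Field K] [NumberField K] {Γ : Type} [Group Γ] [TopologicalSpace Γ]
  [IsTopologicalGroup Γ] [CompactSpace Γ] {s : AbsoluteGaloisGroup K →* Γ} {n : ℕ}
  {S : Set (HeightOneSpectrum (𝓞 K))} {P : HeightOneSpectrum (𝓞 K) → Polynomial ℚ}
  {β : ∀ (ℓ : ℕ) [Fact ℓ.Prime], Γ →* Matrix (Fin n) (Fin n) ℤ_[ℓ]}

omit [IsTopologicalGroup Γ] [CompactSpace Γ] in
theorem nice (hs : Continuous s) (h : ∀ (ℓ : ℕ) [Fact ℓ.Prime], IsSystem s S P ℓ (β ℓ))
    {v : HeightOneSpectrum (𝓞 K)} (hv : IsRegularPlace S P v) : Pool.Agent.Y142.ZS.NiceP S P v := by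
  refine Pool.Agent.Y142.SS.nice_of_complexA
    (fun ℓ _ => (Pool.Agent.R932.qrep (β ℓ)).comp s) (fun ℓ _ => ?_) hv.1 hv.2.1 hv.2.2
  exact ⟨(Pool.Agent.R932.continuous_qm.comp (h ℓ).1).comp hs, fun v hv hvℓ σ hσ =>
    (h ℓ).2 v hv hvℓ σ hσ⟩

theorem mem_closure {m : ℕ}
    {u : Fin (m + 1) → HeightOneSpectrum (𝓞 K)} (hu : ∀ i, IsRegularPlace S P (u i))
    {g w : AbsoluteGaloisGroup ℚ} (hw : ∀ x, (∀ i, x ∈ splittingField (P (u i))) → w x = g x) :
    w⁻¹ * g ∈ Subgroup.closure (⋃ i, Pool.Agent.Y142.SS.Fix (P (u i))) := by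
  have hLf : ∀ (i : Fin (m + 1)) (x : AlgebraicClosure ℚ),
      x ∈ Pool.Agent.Y142.ZI.Lf (P (u i)) → x ∈ splittingField (P (u i)) := by
    intro i x hx
    have h2 : (P (u i)).rootSet (AlgebraicClosure ℚ) =
        {x : AlgebraicClosure ℚ | Polynomial.aeval x (P (u i)) = 0} := by
      ext y
      exact Polynomial.mem_rootSet_of_ne (hu i).2.1.ne_zero
    unfold Pool.Agent.Y142.ZI.Lf at hx
    rw [h2] at hx
    exact hx
  refine Pool.Agent.Y142.SS.field_mem _ (fun i => (hu i).2.1.ne_zero) fun x hx => ?_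
  rw [AlgEquiv.mul_apply, ← hw x fun i => hLf i x (hx i), ← AlgEquiv.mul_apply, inv_mul_cancel,
    AlgEquiv.one_apply]

end proof

/-- **The Tate conjecture for divisors and uniform finiteness of the invariants of the Brauer group at
100 percent of the prime numbers, from Frobenius polynomials at finitely many places.** -/
theorem result {K : Type} [Field K] [NumberField K] {Γ : Type} [Group Γ] [TopologicalSpace Γ]
    [IsTopologicalGroup Γ] [CompactSpace Γ] (s : AbsoluteGaloisGroup K →* Γ) (hs : Continuous s)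
    (S : Set (HeightOneSpectrum (𝓞 K))) (hS : S.Finite) {ι : Type} [Fintype ι] {n : ι → ℕ}
    (P : ι → HeightOneSpectrum (𝓞 K) → Polynomial ℚ)
    (β : ∀ (i : ι) (ℓ : ℕ) [Fact ℓ.Prime], Γ →* Matrix (Fin (n i)) (Fin (n i)) ℤ_[ℓ])
    (hβ : ∀ (i : ι) (ℓ : ℕ) [Fact ℓ.Prime], IsSystem s S (P i) ℓ (β i ℓ))
    (h : ∀ i, IsOddPiece (n i) S (P i) (β i) ∨ HasRootPlace S (P i)) :
    ∃ Λ : Set ℕ, HasDensityZero {ℓ | ℓ.Prime ∧ ℓ ∉ Λ} ∧ ∀ d : ℕ, ∃ C : ℕ, 0 < C ∧
      ∀ U : Subgroup Γ, U.index ≠ 0 → U.index ≤ d → ∀ (ℓ : ℕ) [Fact ℓ.Prime], ℓ ∈ Λ →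
        -- the Tate conjecture
        (∀ x : ∀ i, Fin (n i) → ℚ_[ℓ], (∀ σ ∈ U, ∀ i, rat (β i ℓ σ) *ᵥ x i = x i) → x = 0) ∧
        -- the Brauer group
        ∀ x : ∀ i, Fin (n i) → ℚ_[ℓ], (∀ σ ∈ U, ∀ i, Integral (rat (β i ℓ σ) *ᵥ x i - x i)) →
          ∀ i, Integral ((C : ℚ_[ℓ]) • x i) := by
  have hb : ∀ i, Pool.Agent.T2H36.BR.Bounded (β i) := by
    intro i
    rcases h i with ⟨⟨hodd, h5, v₀, v₁, Q₀, Q₁, hv₀, hv₁, hxyz, hsq, m, u, hu, hd⟩, Z, hZs, hZ,
      hiso⟩ | ⟨v, hv, hroot⟩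
    · refine Pool.Agent.T2H36.FP.bounded_places (P := P i) hodd h5 hS (β i) (fun ℓ _ => (hβ i ℓ).1)
        hZ (fun ℓ _ => ⟨(hβ i ℓ).1.comp hs, ?_, ?_, hiso ℓ, fun v hv hvℓ σ hσ => ?_⟩)
        ⟨hv₀.1, hv₀.2.1, fun k hk => Pool.Agent.Y142.ZO.coprime_of_roots hv₀.2.2 k hk⟩ hxyz
        ⟨hv₁.1, hv₁.2.1, fun k hk => Pool.Agent.Y142.ZO.coprime_of_roots hv₁.2.2 k hk⟩ hsq u
        (fun j => nice hs (fun ℓ _ => hβ i ℓ) (hu j)) ?_
      · rw [← Matrix.transpose_map, hZs]
      · have hdet : (Z.map (Int.cast : ℤ → ℤ_[ℓ])).det = ((Z.det : ℤ) : ℤ_[ℓ]) := by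
          have := (Int.castRingHom ℤ_[ℓ]).map_det Z
          rw [RingHom.mapMatrix_apply] at this
          exact this.symm
        rw [hdet]
        exact_mod_cast hZ
      · rw [← (hβ i ℓ).2 v hv hvℓ σ hσ, ← Matrix.charpoly_map]
        rfl
      · intro g d hd2 hdn
        obtain ⟨v, w, hv, hw, hR⟩ := hd g d hd2 hdn
        exact ⟨v, nice hs (fun ℓ _ => hβ i ℓ) hv, w, fun R h1 h2 => hR R ⟨h1, h2⟩,
          mem_closure hu hw⟩
    · exact Pool.Agent.T2H36.BR.bounded_place (P := P i) (β i) (fun ℓ _ => (hβ i ℓ).2) hv hroot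
  obtain ⟨Λ, hΛ, hd⟩ := Pool.Agent.T2H36.BR.br_final β hb
  refine ⟨Λ, hΛ, fun d => ?_⟩
  obtain ⟨C, hC, hK⟩ := hd d
  refine ⟨C, hC, fun U hU hUd ℓ hp hℓ => ⟨fun x hx => ?_, fun x hx i => ?_⟩⟩
  · funext i
    refine Pool.Agent.T2H36.BR.tate_of hC fun m => ?_
    refine hK U hU hUd ℓ hℓ i (((ℓ : ℚ_[ℓ]) ^ m)⁻¹ • x i) fun σ hσ a => ?_
    have h1 : Pool.Agent.R932.genM ℓ (β i ℓ σ) *ᵥ x i = x i := hx σ hσ i
    rw [mulVec_smul, h1, sub_self, Pi.zero_apply, norm_zero]
    exact zero_le_one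
  · intro a
    exact hK U hU hUd ℓ hℓ i (x i) (fun σ hσ => hx σ hσ i) a

end

end Pool.Agent.Results.MP_17a657_ag.BrauerFromPlaces
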