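import Mathlib
import Pool.Agent.T2H36.BR.B2

/-!
# Uniform finiteness of the Galois invariants of the Brauer group at 100 percent of the primes

Let `k` be a field which is finitely generated over `ℚ`, `Γ` its absolute Galois group, `X` a smooth
projective variety over `k`. `N` is the Néron-Severi lattice of `X̄` modulo torsion and `T` the
transcendental lattice (the orthogonal complement of `N` in `H^2(X, ℤ(1))` for the form given by a
polarisation). `T ⊗ ℤ_ℓ` is a Galois module, and up to finite groups, which are trivial for almost all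
`ℓ`, `T ⊗ ℚ_ℓ / ℤ_ℓ` is the `ℓ`-primary part of `Br(X̄)`. The Tate conjecture for divisors for `X` over
the extensions `L` of `k` at the prime `ℓ` is `(T ⊗ ℚ_ℓ)^{G_L} = 0`, equivalently the finiteness of
`(T ⊗ ℚ_ℓ / ℤ_ℓ)^{G_L}`.

Let `T` be (commensurable to) the sum of the lattices `T_i` of rank `n_i`, stable under the Galois group
for all `ℓ`; let `K` be a number field and `s : G_K → Γ` given by a closed point of a model of `X` (if
`k` is a number field, then `K = k` and `s` is the identity). For every `i` we suppose: either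
* `n_i ≥ 5` is odd, the Galois group preserves an integral symmetric form with determinant different
  from zero on `T_i`, and for ONE prime `ℓ₀` not dividing `n_i - 1` the image of `G_K` in the
  orthogonal group of `T_i ⊗ ℤ_{ℓ₀}` is open; or
* at ONE place of good reduction no eigenvalue of Frobenius on `T_i` is a root of unity (for example if
  `n_i` is even and the image at one prime `ℓ₀` is open).

**Theorem.** There is a set `Λ` of prime numbers of natural density one such that for every `d` there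
is a constant `C` with the following property: for ALL extensions `L` of `k` of degree at most `d` and ALL
`ℓ ∈ Λ`
* `(T ⊗ ℚ_ℓ)^{G_L} = 0`: the Tate conjecture for divisors holds for `X` over `L` at `ℓ`;
* `(T ⊗ ℚ_ℓ / ℤ_ℓ)^{G_L}` is killed by `C`.

So the sum over all `ℓ ∈ Λ` of the groups `(T ⊗ ℚ_ℓ / ℤ_ℓ)^{G_L}` is finite, of order at most `C ^ rank T`,
uniformly in all `L` of degree at most `d`. In particular for almost all `ℓ ∈ Λ` it is zero.

In odd rank every Frobenius element (of determinant one) has the eigenvalue `1`, so that no single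
element and no `ℓ`-independence of the Frobenius polynomials gives the result at other primes.

Idea of the proof. By the results of the project of `AdelicFromOnePrime` (MP_2b5912_ag) the
hypothesis at `ℓ₀` implies that for `ℓ` outside a set of density zero the image contains all isometries
of `T_i ⊗ ℤ_ℓ` whose reduction is a product of elements of order `ℓ` (for large `ℓ`), and that the Lie
algebra of the image is full (starting library). `U = G_L` contains all `d!`-th powers. For `ℓ > d` the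
`d!`-th powers of the unipotent isometries modulo `ℓ` generate a group which acts irreducibly and
nontrivially, so it has no invariants modulo `ℓ`. For the finitely many small primes in `Λ` a limit
argument and the tangent vectors of `d!`-th powers give a bound.
-/

set_option autoImplicit false

namespace Pool.Agent.Results.MP_17a657_ag.BrauerInvariantsUniform

open Matrix Filter Topology NumberField IsDedekindDomain

noncomputable section

/-- the absolute Galois group of `K`, with its profinite (Krull) topology -/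
abbrev AbsoluteGaloisGroup (K : Type) [Field K] : Type := Gal(AlgebraicClosure K/K)

/-- `σ` is an (arithmetic) Frobenius element at the prime `v` of the number field `K`: for some prime
`Q` of the algebraic closure above `v` it acts on the residue field as `x ↦ x ^ N(v)` -/
def IsFrobenius {K : Type} [Field K] [NumberField K] (v : HeightOneSpectrum (𝓞 K))
    (σ : AbsoluteGaloisGroup K) : Prop :=
  ∃ Q : Ideal (𝓞 (AlgebraicClosure K)), Q.IsMaximal ∧
    Q.comap (algebraMap (𝓞 K) (𝓞 (AlgebraicClosure K))) = v.asIdeal ∧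
    ∀ x : 𝓞 (AlgebraicClosure K), σ • x - x ^ Ideal.absNorm v.asIdeal ∈ Q

/-- an `ℓ`-adic integral matrix as a matrix over `ℚ_ℓ` -/
def rat {ℓ : ℕ} [Fact ℓ.Prime] {n : ℕ} (g : Matrix (Fin n) (Fin n) ℤ_[ℓ]) :
    Matrix (Fin n) (Fin n) ℚ_[ℓ] :=
  g.map (algebraMap ℤ_[ℓ] ℚ_[ℓ])

/-- `β` is the representation of `Γ` on `T_i ⊗ ℤ_ℓ`: it is continuous, and for all `v ∉ S` which are
prime to `ℓ` the characteristic polynomial of (the image under `s` of) the geometric Frobenius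
elements at `v` is `P v` -/
def IsSystem {K : Type} [Field K] [NumberField K] {Γ : Type} [Group Γ] [TopologicalSpace Γ]
    (s : AbsoluteGaloisGroup K →* Γ) (S : Set (HeightOneSpectrum (𝓞 K)))
    (P : HeightOneSpectrum (𝓞 K) → Polynomial ℚ) {n : ℕ} (ℓ : ℕ) [Fact ℓ.Prime]
    (β : Γ →* Matrix (Fin n) (Fin n) ℤ_[ℓ]) : Prop :=
  Continuous β ∧ ∀ v ∉ S, (ℓ : 𝓞 K) ∉ v.asIdeal → ∀ σ : AbsoluteGaloisGroup K, IsFrobenius v σ →
    (rat (β (s σ⁻¹))).charpoly = (P v).map (algebraMap ℚ ℚ_[ℓ])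

/-- the image of `β ∘ s` contains all isometries of the form `Z` which are close to `1` -/
def IsOpenImage {K : Type} [Field K] {Γ : Type} [Group Γ] (s : AbsoluteGaloisGroup K →* Γ) {n : ℕ}
    (Z : Matrix (Fin n) (Fin n) ℤ) (ℓ : ℕ) [Fact ℓ.Prime]
    (β : Γ →* Matrix (Fin n) (Fin n) ℤ_[ℓ]) : Prop :=
  ∃ ε : ℝ, 0 < ε ∧ ∀ g : Matrix (Fin n) (Fin n) ℤ_[ℓ],
    gᵀ * Z.map (Int.cast : ℤ → ℤ_[ℓ]) * g = Z.map (Int.cast : ℤ → ℤ_[ℓ]) →
    (∀ a b, ‖(g - 1) a b‖ < ε) → ∃ σ, β (s σ) = g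

/-- the first kind of pieces: odd rank at least five, the integral form `Z` is symmetric and
nondegenerate and it is preserved by the Galois group, and for one prime `ℓ₀` not dividing `n - 1`
the image is open in the orthogonal group -/
def IsOddPiece {K : Type} [Field K] {Γ : Type} [Group Γ] (s : AbsoluteGaloisGroup K →* Γ) (n : ℕ)
    (β : ∀ (ℓ : ℕ) [Fact ℓ.Prime], Γ →* Matrix (Fin n) (Fin n) ℤ_[ℓ]) : Prop :=
  Odd n ∧ 5 ≤ n ∧ ∃ Z : Matrix (Fin n) (Fin n) ℤ, Zᵀ = Z ∧ Z.det ≠ 0 ∧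
    (∀ (ℓ : ℕ) [Fact ℓ.Prime] (g : Γ), (β ℓ g)ᵀ * Z.map (Int.cast : ℤ → ℤ_[ℓ]) * β ℓ g =
      Z.map (Int.cast : ℤ → ℤ_[ℓ])) ∧
    ∃ (ℓ₀ : ℕ) (_ : Fact ℓ₀.Prime), ¬ ℓ₀ ∣ n - 1 ∧ IsOpenImage s Z ℓ₀ (β ℓ₀)

/-- the second kind of pieces: at one place `v ∉ S` no root of `P v` is a root of unity -/
def HasRootPlace {K : Type} [Field K] [NumberField K] (S : Set (HeightOneSpectrum (𝓞 K)))
    (P : HeightOneSpectrum (𝓞 K) → Polynomial ℚ) : Prop :=
  ∃ v ∉ S, ∀ k : ℕ, 0 < k → ∀ x : ℂ, Polynomial.aeval x (P v) = 0 → x ^ k ≠ 1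

/-- the set `A` of prime numbers has natural density zero -/
def HasDensityZero (A : Set ℕ) : Prop :=
  Tendsto (fun n : ℕ => (Nat.card {ℓ : ℕ // ℓ ≤ n ∧ ℓ ∈ A} : ℝ) / (Nat.primeCounting n : ℝ))
    atTop (𝓝 0)

/-- the vector `x` over `ℚ_ℓ` is integral -/
def Integral {ℓ : ℕ} [Fact ℓ.Prime] {n : ℕ} (x : Fin n → ℚ_[ℓ]) : Prop := ∀ a, ‖x a‖ ≤ 1

theorem full_of_open {K : Type} [Field K] {Γ : Type} [Group Γ] {s : AbsoluteGaloisGroup K →* Γ}
    {n : ℕ} {Z : Matrix (Fin n) (Fin n) ℤ} (hZs : Zᵀ = Z) (hZ : Z.det ≠ 0) {ℓ : ℕ}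
    [hp : Fact ℓ.Prime] {β : Γ →* Matrix (Fin n) (Fin n) ℤ_[ℓ]} (h : IsOpenImage s Z ℓ β) :
    Pool.Agent.Y142.ZI.FullLie ℓ (Pool.Agent.R932.genRep ℓ (β.comp s))
      (Pool.Agent.R932.genM ℓ (Z.map (Int.cast : ℤ → ℤ_[ℓ]))) := by
  obtain ⟨ε, hε, hopen⟩ := h
  refine Pool.Agent.R932.OP.cay ℓ n _ _ _ ?_ ?_ ⟨min ε 1, lt_min hε one_pos, fun g hg hgε => ?_⟩
  · unfold Pool.Agent.R932.genM
    rw [← Matrix.transpose_map, ← Matrix.transpose_map, hZs]
  · rw [Pool.Agent.R932.genM_det]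
    have hdet : (Z.map (Int.cast : ℤ → ℤ_[ℓ])).det = ((Z.det : ℤ) : ℤ_[ℓ]) := by
      have := (Int.castRingHom ℤ_[ℓ]).map_det Z
      rw [RingHom.mapMatrix_apply] at this
      exact this.symm
    rw [hdet]
    intro h0
    have h1 : ((Z.det : ℤ) : ℚ_[ℓ]) = 0 := h0
    exact hZ (by exact_mod_cast h1)
  · -- `g` is integral
    have h1 : ∀ a b, ‖g a b‖ ≤ 1 := by
      intro a b
      have h2 : g a b = (g - 1) a b + (1 : Matrix (Fin n) (Fin n) ℚ_[ℓ]) a b := by
        rw [Matrix.sub_apply, sub_add_cancel]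
      rw [h2]
      refine (Padic.nonarchimedean _ _).trans (max_le ((hgε a b).le.trans (min_le_right _ _)) ?_)
      rw [Matrix.one_apply]
      split_ifs <;> simp
    let g' : Matrix (Fin n) (Fin n) ℤ_[ℓ] := Matrix.of fun a b => ⟨g a b, h1 a b⟩
    have hg' : g'.map (algebraMap ℤ_[ℓ] ℚ_[ℓ]) = g := by
      ext a b
      rfl
    obtain ⟨σ, hσ⟩ := hopen g' (by
      have hinj : Function.Injective (algebraMap ℤ_[ℓ] ℚ_[ℓ]) := Subtype.val_injective
      apply Matrix.map_injective hinj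
      beta_reduce
      rw [Matrix.map_mul, Matrix.map_mul, Matrix.transpose_map, hg']
      exact hg) (fun a b => by
      have h2 : (((g' - 1) a b : ℤ_[ℓ]) : ℚ_[ℓ]) = (g - 1) a b := by
        rw [Matrix.sub_apply, Matrix.sub_apply, Matrix.one_apply, Matrix.one_apply]
        split_ifs <;> simp [g']
      show ‖(((g' - 1) a b : ℤ_[ℓ]) : ℚ_[ℓ])‖ < ε
      rw [h2]
      exact (hgε a b).trans_le (min_le_left _ _))
    refine ⟨σ, ?_⟩
    show (β (s σ)).map (algebraMap ℤ_[ℓ] ℚ_[ℓ]) = g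
    rw [hσ, hg']

/-- **Uniform Tate conjecture for divisors and uniform finiteness of the invariants of the Brauer
group at 100 percent of the prime numbers.** -/
theorem result {K : Type} [Field K] [NumberField K] {Γ : Type} [Group Γ] [TopologicalSpace Γ]
    [IsTopologicalGroup Γ] [CompactSpace Γ] (s : AbsoluteGaloisGroup K →* Γ) (hs : Continuous s)
    (S : Set (HeightOneSpectrum (𝓞 K))) (hS : S.Finite) {ι : Type} [Fintype ι] {n : ι → ℕ}
    (P : ι → HeightOneSpectrum (𝓞 K) → Polynomial ℚ)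
    (β : ∀ (i : ι) (ℓ : ℕ) [Fact ℓ.Prime], Γ →* Matrix (Fin (n i)) (Fin (n i)) ℤ_[ℓ])
    (hβ : ∀ (i : ι) (ℓ : ℕ) [Fact ℓ.Prime], IsSystem s S (P i) ℓ (β i ℓ))
    (h : ∀ i, IsOddPiece s (n i) (β i) ∨ HasRootPlace S (P i)) :
    ∃ Λ : Set ℕ, HasDensityZero {ℓ | ℓ.Prime ∧ ℓ ∉ Λ} ∧ ∀ d : ℕ, ∃ C : ℕ, 0 < C ∧
      ∀ U : Subgroup Γ, U.index ≠ 0 → U.index ≤ d → ∀ (ℓ : ℕ) [Fact ℓ.Prime], ℓ ∈ Λ →
        -- the Tate conjecture
        (∀ x : ∀ i, Fin (n i) → ℚ_[ℓ], (∀ σ ∈ U, ∀ i, rat (β i ℓ σ) *ᵥ x i = x i) → x = 0) ∧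
        -- the Brauer group
        ∀ x : ∀ i, Fin (n i) → ℚ_[ℓ], (∀ σ ∈ U, ∀ i, Integral (rat (β i ℓ σ) *ᵥ x i - x i)) →
          ∀ i, Integral ((C : ℚ_[ℓ]) • x i) := by
  have hb : ∀ i, Pool.Agent.T2H36.BR.Bounded (β i) := by
    intro i
    rcases h i with ⟨hodd, h5, Z, hZs, hZ, hiso, ℓ₀, hp₀, hdvd, hopen⟩ | ⟨v, hv, hroot⟩
    · refine Pool.Agent.T2H36.BR.bounded_odd (P := P i) hodd h5 hS (β i) (fun ℓ _ => (hβ i ℓ).1) hZ
        (fun ℓ _ => ⟨(hβ i ℓ).1.comp hs, ?_, ?_, hiso ℓ, fun v hv hvℓ σ hσ => ?_⟩) ℓ₀ hdvd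
        (full_of_open hZs hZ hopen)
      · rw [← Matrix.transpose_map, hZs]
      · have hdet : (Z.map (Int.cast : ℤ → ℤ_[ℓ])).det = ((Z.det : ℤ) : ℤ_[ℓ]) := by
          have := (Int.castRingHom ℤ_[ℓ]).map_det Z
          rw [RingHom.mapMatrix_apply] at this
          exact this.symm
        rw [hdet]
        exact_mod_cast hZ
      · rw [← (hβ i ℓ).2 v hv hvℓ σ hσ, ← Matrix.charpoly_map]
        rfl
    · exact Pool.Agent.T2H36.BR.bounded_place (P := P i) (β i) (fun ℓ _ => (hβ i ℓ).2) hv hroot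
  obtain ⟨Λ, hΛ, hd⟩ := Pool.Agent.T2H36.BR.br_final β hb
  refine ⟨Λ, hΛ, fun d => ?_⟩
  obtain ⟨C, hC, hK⟩ := hd d
  refine ⟨C, hC, fun U hU hUd ℓ hp hℓ => ⟨fun x hx => ?_, fun x hx i => ?_⟩⟩
  · funext i
    refine Pool.Agent.T2H36.BR.tate_of hC fun m => ?_
    refine hK U hU hUd ℓ hℓ i (((ℓ : ℚ_[ℓ]) ^ m)⁻¹ • x i) fun σ hσ a => ?_
    have h1 : Pool.Agent.R932.genM ℓ (β i ℓ σ) *ᵥ x i = x i := hx σ hσ i
    rw [mulVec_smul, h1, sub_self, Pi.zero_apply, norm_zero]
    exact zero_le_one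
  · intro a
    exact hK U hU hUd ℓ hℓ i (x i) (fun σ hσ => hx σ hσ i) a

end

end Pool.Agent.Results.MP_17a657_ag.BrauerInvariantsUniform
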