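import Mathlib
import Pool.Agent.T2H36.FB.C2

/-!
# The Tate conjecture for divisors and uniform finiteness of Brauer groups for the fibres of families
with big monodromy outside one thin set (no conjecture assumed)

Let `f : X → B` be a smooth projective family over a connected base `B` over a number field. Let `N` be
the Néron-Severi lattice (modulo torsion) of the geometric generic fibre and `T` its orthogonal
complement in `H^2(X_b, ℤ(1))` (for the form given by a relative polarisation); suppose that `T` is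
commensurable to a sum of local systems `T_i` on `B` of rank `n_i ≥ 5`, with an integral nondegenerate
symmetric form `Z_i` which is preserved by the monodromy. `A` is the topological fundamental group of
`B(ℂ)`, `mon_i` the monodromy representation on `T_i`, `Γ` the étale fundamental group of `B`,
`τ : A → Γ` the canonical homomorphism and `β_(i,ℓ)` the representation of `Γ` on `T_i ⊗ ℤ_ℓ`. A point
`b` of `B` over a number field `K` gives a homomorphism `s : G_K → Γ`.

Suppose that the monodromy is big: for every `i` the identity component of the Zariski closure of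
`mon_i(A)` contains `SO(T_i)`. For example `X → B` is the universal family of smooth surfaces of
degree `d ≥ 4` in `ℙ^3` (`T` is the vanishing cohomology for a suitable base), or of other ample
surfaces in a fixed threefold, or a product of families of this kind.

**Theorem.** There is ONE open normal subgroup `N₀` of `Γ` such that for all points `b` over number
fields `K` for which `G_K → Γ / N₀` is surjective the following holds. There is a set `Λ` of prime
numbers of natural density one (all prime numbers, if all `n_i` are even) such that for every `d`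
there is a constant `C` with the following property: for ALL extensions `L` of `K` of degree at most `d`
and ALL `ℓ ∈ Λ`
* `(T ⊗ ℚ_ℓ)^{G_L} = 0`: the Tate conjecture for divisors holds for `X_b` over `L` at `ℓ` (and the
  Picard number of `X_b` is the rank of `N`);
* `(T ⊗ ℚ_ℓ / ℤ_ℓ)^{G_L}` is killed by `C`: up to finite groups, which are trivial for almost all `ℓ`,
  this is the `ℓ`-primary part of `Br(X̄_b)^{G_L}`. So the sum over all `ℓ ∈ Λ` of these groups is
  finite of order at most `C ^ rank T`, uniformly in all `L` of degree at most `d`.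

The points `b` over a fixed number field `K` for which `G_K → Γ / N₀` is not surjective form a thin set,
which does not depend on `ℓ`; by Hilbert's irreducibility theorem, if `B` is an open subset of a
rational variety over `K`, then almost all `b` in `B(K)` are outside of it. No conjecture and no
condition on the Hodge structure of `X_b` is assumed. For ONE prime number `ℓ` (with a thin set which
depends on `ℓ`) the Tate conjecture for the fibres outside a thin set is well known (Terasoma, André).

Idea of the proof: by the comparison of topological and étale monodromy the Lie algebra of the image of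
`Γ` in `GL(T_i ⊗ ℤ_ℓᵢ)` is `so(T_i ⊗ ℚ_ℓᵢ)` for a prime `ℓᵢ` not dividing `n_i - 1`. The image is
virtually a finitely generated pro-`ℓᵢ` group, so its Frattini subgroup is open; this gives `N₀`. For the
points `b` above the image of `G_K` at `ℓᵢ` is the image of `Γ`. If `n_i` is even there are (two)
Frobenius elements without eigenvalues which are roots of unity, which gives the result for all `ℓ`. If
`n_i` is odd, every Frobenius element of determinant one has the eigenvalue `1`, and one uses the
theorem `BrauerInvariantsUniform`: the image of `G_K` in `GL(T_i ⊗ ℤ_ℓ)` is as large as possible for 100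
percent of the `ℓ`.
-/

set_option autoImplicit false

namespace Pool.Agent.Results.MP_17a657_ag.FibresOneThinSet

open Matrix Filter Topology NumberField IsDedekindDomain MvPolynomial

noncomputable section

/-- the absolute Galois group of `K`, with its profinite (Krull) topology -/
abbrev AbsoluteGaloisGroup (K : Type) [Field K] : Type := Gal(AlgebraicClosure K/K)

/-- `σ` is an (arithmetic) Frobenius element at the prime `v` of the number field `K`: for some prime
`Q` of the algebraic closure above `v` it acts on the residue field as `x ↦ x ^ N(v)` -/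
def IsFrobenius {K : Type} [Field K] [NumberField K] (v : HeightOneSpectrum (𝓞 K))
    (σ : AbsoluteGaloisGroup K) : Prop :=
  ∃ Q : Ideal (𝓞 (AlgebraicClosure K)), Q.IsMaximal ∧
    Q.comap (algebraMap (𝓞 K) (𝓞 (AlgebraicClosure K))) = v.asIdeal ∧
    ∀ x : 𝓞 (AlgebraicClosure K), σ • x - x ^ Ideal.absNorm v.asIdeal ∈ Q

/-- an `ℓ`-adic integral matrix as a matrix over `ℚ_ℓ` -/
def rat {ℓ : ℕ} [Fact ℓ.Prime] {n : ℕ} (g : Matrix (Fin n) (Fin n) ℤ_[ℓ]) :
    Matrix (Fin n) (Fin n) ℚ_[ℓ] :=
  g.map (algebraMap ℤ_[ℓ] ℚ_[ℓ])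

/-- for all `v ∉ S` which are prime to `ℓ` the characteristic polynomial of (the image of) the
geometric Frobenius elements at `v` is `P v` -/
def HasFrobeniusPolynomials {K : Type} [Field K] [NumberField K] {n : ℕ}
    (S : Set (HeightOneSpectrum (𝓞 K))) (P : HeightOneSpectrum (𝓞 K) → Polynomial ℚ) (ℓ : ℕ)
    [Fact ℓ.Prime] (β : AbsoluteGaloisGroup K →* Matrix (Fin n) (Fin n) ℤ_[ℓ]) : Prop :=
  ∀ v ∉ S, (ℓ : 𝓞 K) ∉ v.asIdeal → ∀ σ : AbsoluteGaloisGroup K, IsFrobenius v σ →
    (rat (β σ⁻¹)).charpoly = (P v).map (algebraMap ℚ ℚ_[ℓ])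

/-- The points of the identity component of the Zariski closure of `mon(A)` in the complex matrices: a
polynomial that vanishes on the image of a subgroup of finite index vanishes at `g`. -/
def InTopologicalMonodromy {A : Type} [Group A] {n : ℕ} (mon : A →* Matrix (Fin n) (Fin n) ℤ)
    (g : Matrix (Fin n) (Fin n) ℂ) : Prop :=
  ∀ f : MvPolynomial (Fin n × Fin n) ℂ,
    (∃ Δ : Subgroup A, Δ.FiniteIndex ∧
      ∀ γ ∈ Δ, aeval (fun q : Fin n × Fin n => (mon γ q.1 q.2 : ℂ)) f = 0) →
    aeval (fun q : Fin n × Fin n => g q.1 q.2) f = 0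

/-- the set `A` of prime numbers has natural density zero -/
def HasDensityZero (A : Set ℕ) : Prop :=
  Tendsto (fun n : ℕ => (Nat.card {ℓ : ℕ // ℓ ≤ n ∧ ℓ ∈ A} : ℝ) / (Nat.primeCounting n : ℝ))
    atTop (𝓝 0)

/-- the vector `x` over `ℚ_ℓ` is integral -/
def Integral {ℓ : ℕ} [Fact ℓ.Prime] {n : ℕ} (x : Fin n → ℚ_[ℓ]) : Prop := ∀ a, ‖x a‖ ≤ 1

/-- **The Tate conjecture for divisors and uniform finiteness of the invariants of the Brauer groups
for the fibres of families with big monodromy outside one thin set.** -/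
theorem result {ι : Type} [Fintype ι] {n : ι → ℕ} (hn : ∀ i, 5 ≤ n i)
    -- the intersection forms
    (Z : ∀ i, Matrix (Fin (n i)) (Fin (n i)) ℤ) (hZs : ∀ i, (Z i)ᵀ = Z i) (hZ : ∀ i, (Z i).det ≠ 0)
    -- the étale fundamental group of the base and its representations
    (Γ : Type) [Group Γ] [TopologicalSpace Γ] [IsTopologicalGroup Γ] [CompactSpace Γ]
    (β : ∀ (i : ι) (ℓ : ℕ) [Fact ℓ.Prime], Γ →* Matrix (Fin (n i)) (Fin (n i)) ℤ_[ℓ])
    (hβ : ∀ (i : ι) (ℓ : ℕ) [Fact ℓ.Prime], Continuous (β i ℓ))
    (hiso : ∀ (i : ι) (ℓ : ℕ) [Fact ℓ.Prime] (g : Γ), (β i ℓ g)ᵀ *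
      (Z i).map (Int.cast : ℤ → ℤ_[ℓ]) * β i ℓ g = (Z i).map (Int.cast : ℤ → ℤ_[ℓ]))
    -- the topological fundamental group and the monodromy representations
    (A : Type) [Group A] (τ : A →* Γ) (mon : ∀ i, A →* Matrix (Fin (n i)) (Fin (n i)) ℤ)
    (hcomp : ∀ (i : ι) (ℓ : ℕ) [Fact ℓ.Prime] (γ : A),
      β i ℓ (τ γ) = (mon i γ).map (Int.cast : ℤ → ℤ_[ℓ]))
    -- the monodromy is big
    (hbig : ∀ (i : ι) (t : Matrix (Fin (n i)) (Fin (n i)) ℂ),
      tᵀ * (Z i).map (Int.cast : ℤ → ℂ) * t = (Z i).map (Int.cast : ℤ → ℂ) → t.det = 1 →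
      InTopologicalMonodromy (mon i) t) :
    ∃ N₀ : Subgroup Γ, N₀.Normal ∧ IsOpen (N₀ : Set Γ) ∧
      -- the points `b` of the base over number fields `K` with `G_K → Γ / N₀` surjective
      ∀ (K : Type) [Field K] [NumberField K] (s : AbsoluteGaloisGroup K →* Γ), Continuous s →
        (∀ g : Γ, ∃ σ, (s σ)⁻¹ * g ∈ N₀) →
      -- the Frobenius elements
      ∀ (S : Set (HeightOneSpectrum (𝓞 K))), S.Finite →
      ∀ (P : ι → HeightOneSpectrum (𝓞 K) → Polynomial ℚ),
        (∀ (i : ι) (ℓ : ℕ) [Fact ℓ.Prime],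
          HasFrobeniusPolynomials S (P i) ℓ ((β i ℓ).comp s)) →
      ∃ Λ : Set ℕ, HasDensityZero {ℓ | ℓ.Prime ∧ ℓ ∉ Λ} ∧ ((∀ i, Even (n i)) → Λ = Set.univ) ∧
        ∀ d : ℕ, ∃ C : ℕ, 0 < C ∧ ∀ U : Subgroup (AbsoluteGaloisGroup K), U.index ≠ 0 →
          U.index ≤ d → ∀ (ℓ : ℕ) [Fact ℓ.Prime], ℓ ∈ Λ →
            -- the Tate conjecture
            (∀ x : ∀ i, Fin (n i) → ℚ_[ℓ],
              (∀ σ ∈ U, ∀ i, rat (β i ℓ (s σ)) *ᵥ x i = x i) → x = 0) ∧
            -- the Brauer group
            ∀ x : ∀ i, Fin (n i) → ℚ_[ℓ],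
              (∀ σ ∈ U, ∀ i, Integral (rat (β i ℓ (s σ)) *ᵥ x i - x i)) →
              ∀ i, Integral ((C : ℚ_[ℓ]) • x i) := by
  obtain ⟨N₀, hN, hNo, hfib⟩ := Pool.Agent.T2H36.FB.br_fibres hn Z hZs hZ τ β hβ hiso
    (fun i γ => mon i γ) hcomp hbig
  refine ⟨N₀, hN, hNo, fun K _ _ s hs hsN S hS P hP => ?_⟩
  obtain ⟨Λ, hΛ, hev, hd⟩ := hfib K s hs hsN S hS P (fun i ℓ _ => hP i ℓ)
  refine ⟨Λ, hΛ, hev, fun d => ?_⟩
  obtain ⟨C, hC, hK⟩ := hd d
  refine ⟨C, hC, fun U hU hUd ℓ hp hℓ => ⟨fun x hx => ?_, fun x hx i => ?_⟩⟩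
  · funext i
    refine Pool.Agent.T2H36.BR.tate_of hC fun m => ?_
    refine hK U hU hUd ℓ hℓ i (((ℓ : ℚ_[ℓ]) ^ m)⁻¹ • x i) fun σ hσ a => ?_
    have h1 : Pool.Agent.R932.genM ℓ (β i ℓ (s σ)) *ᵥ x i = x i := hx σ hσ i
    rw [mulVec_smul, h1, sub_self, Pi.zero_apply, norm_zero]
    exact zero_le_one
  · intro a
    exact hK U hU hUd ℓ hℓ i (x i) (fun σ hσ => hx σ hσ i) a

end

end Pool.Agent.Results.MP_17a657_ag.FibresOneThinSet
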